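import Mathlib

/-!
Definitions for MP_6c466c_co (sums of dilates and fractional dilates).
-/

set_option autoImplicit false

open scoped ENNReal

namespace Pool.Agent.P6c46

/-- The sum of dilates `S + m * S = {s + m t : s, t in S}`. -/
def sumDil (m : ℤ) (S : Finset ℤ) : Finset ℤ :=
  (S ×ˢ S).image fun x => x.1 + m * x.2

/-- The number `∑_{j + m k = i} a(j) a(k)`. -/
noncomputable def rep (m : ℤ) (a : ℤ → ℝ) (i : ℤ) : ℝ :=
  ∑' k : ℤ, a (i - m * k) * a k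

/-- The norm `‖a + m a‖ = inf_{0 < p < 1} ∑_i (∑_{j + m k = i} a(j) a(k))^p`. -/
noncomputable def nrm (m : ℤ) (a : ℤ → ℝ) : ℝ≥0∞ :=
  ⨅ p ∈ Set.Ioo (0 : ℝ) 1, ∑' i : ℤ, ENNReal.ofReal (rep m a i) ^ p

/-- A fractional dilate: a summable function from the integers to `[0, 1]`. -/
def IsFracDilate (a : ℤ → ℝ) : Prop :=
  (∀ i, 0 ≤ a i ∧ a i ≤ 1) ∧ Summable a

end Pool.Agent.P6c46
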