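import Pool.Agent.Lib.P6c46.Sets

/-!
The norms of indicator functions, and the inequality `|S + S|^3 ≤ |S + 2 S|^4`.
-/

set_option autoImplicit false

open scoped ENNReal Pointwise
open Filter Topology

namespace Pool.Agent.P6c46

open Classical in
/-- the indicator function of a finite set -/
noncomputable def ind (S : Finset ℤ) (i : ℤ) : ℝ := if i ∈ S then 1 else 0

theorem ind_fracDilate (S : Finset ℤ) : IsFracDilate (ind S) := by
  refine ⟨fun i => ?_, ?_⟩
  · unfold ind
    split_ifs <;> norm_num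
  · refine summable_of_ne_finset_zero (s := S) fun i hi => ?_
    unfold ind
    rw [if_neg hi]

theorem tsum_ind (S : Finset ℤ) : ∑' i, ind S i = S.card := by
  rw [tsum_eq_sum (s := S) fun i hi => by unfold ind; rw [if_neg hi]]
  rw [Finset.sum_congr rfl (fun i hi => by unfold ind; rw [if_pos hi] : ∀ i ∈ S, ind S i = 1)]
  simp

theorem rep_ind (m : ℤ) (S : Finset ℤ) (i : ℤ) :
    rep m (ind S) i = ((S.filter fun k => i - m * k ∈ S).card : ℝ) := by
  unfold rep
  rw [tsum_eq_sum (s := S) fun k hk => by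
    have : ind S k = 0 := by unfold ind; rw [if_neg hk]
    rw [this, mul_zero]]
  rw [Finset.card_filter]
  push_cast
  refine Finset.sum_congr rfl fun k hk => ?_
  unfold ind
  rw [if_pos hk, mul_one]

theorem rep_ind_zero {m : ℤ} {S : Finset ℤ} {i : ℤ} (hi : i ∉ sumDil m S) :
    rep m (ind S) i = 0 := by
  rw [rep_ind, Nat.cast_eq_zero, Finset.card_eq_zero, Finset.filter_eq_empty_iff]
  intro k hk h
  refine hi ?_
  rw [sumDil_eq, mem_sd]
  exact ⟨i - m * k, h, k, hk, by ring⟩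

theorem one_le_rep_ind {m : ℤ} {S : Finset ℤ} {i : ℤ} (hi : i ∈ sumDil m S) :
    1 ≤ rep m (ind S) i := by
  rw [rep_ind, Nat.one_le_cast, Nat.one_le_iff_ne_zero, Ne, Finset.card_eq_zero,
    Finset.filter_eq_empty_iff]
  rw [sumDil_eq, mem_sd] at hi
  obtain ⟨a, ha, b, hb, h⟩ := hi
  intro h2
  refine h2 hb ?_
  have : i - m * b = a := by rw [← h]; ring
  rw [this]
  exact ha

theorem sum_eq (m : ℤ) (S : Finset ℤ) {p : ℝ} (hp : 0 < p) :
    ∑' i : ℤ, ENNReal.ofReal (rep m (ind S) i) ^ p =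
      ∑ i ∈ sumDil m S, ENNReal.ofReal (rep m (ind S) i) ^ p := by
  refine tsum_eq_sum fun i hi => ?_
  rw [rep_ind_zero hi, ENNReal.ofReal_zero, ENNReal.zero_rpow_of_pos hp]

theorem nrm_ind (m : ℤ) (S : Finset ℤ) : nrm m (ind S) = ((sumDil m S).card : ℝ≥0∞) := by
  unfold nrm
  apply le_antisymm
  · have h1 : Tendsto (fun p : ℝ => ∑ i ∈ sumDil m S, ENNReal.ofReal (rep m (ind S) i) ^ p)
        (𝓝[>] 0) (𝓝 (∑ _i ∈ sumDil m S, (1 : ℝ≥0∞))) := by
      refine tendsto_finsetSum _ fun i hi => ?_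
      have h2 : Tendsto (fun p : ℝ => ENNReal.ofReal (rep m (ind S) i ^ p)) (𝓝[>] 0)
          (𝓝 (ENNReal.ofReal 1)) := by
        refine (ENNReal.continuous_ofReal.tendsto _).comp ?_
        have h3 : ContinuousAt (fun p : ℝ => rep m (ind S) i ^ p) 0 :=
          Real.continuousAt_const_rpow (by
            have := one_le_rep_ind hi
            intro h
            rw [h] at this
            norm_num at this)
        have h4 := h3.tendsto
        rw [Real.rpow_zero] at h4
        exact h4.mono_left nhdsWithin_le_nhds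
      rw [ENNReal.ofReal_one] at h2
      refine h2.congr' ?_
      filter_upwards [self_mem_nhdsWithin] with p hp
      rw [ENNReal.ofReal_rpow_of_nonneg ((zero_le_one).trans (one_le_rep_ind hi)) (le_of_lt hp)]
    rw [Finset.sum_const, nsmul_eq_mul, mul_one] at h1
    refine ge_of_tendsto h1 ?_
    filter_upwards [Ioo_mem_nhdsGT (zero_lt_one' ℝ)] with p hp
    rw [← sum_eq m S hp.1]
    exact iInf₂_le p hp
  · refine le_iInf₂ fun p hp => ?_
    rw [sum_eq m S hp.1]
    calc ((sumDil m S).card : ℝ≥0∞) = ∑ _i ∈ sumDil m S, (1 : ℝ≥0∞) := by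
          rw [Finset.sum_const, nsmul_eq_mul, mul_one]
      _ ≤ _ := by
          refine Finset.sum_le_sum fun i hi => ?_
          have h1 : (1 : ℝ≥0∞) ≤ ENNReal.ofReal (rep m (ind S) i) := by
            rw [← ENNReal.ofReal_one]
            exact ENNReal.ofReal_le_ofReal (one_le_rep_ind hi)
          calc (1 : ℝ≥0∞) = 1 ^ p := (ENNReal.one_rpow p).symm
            _ ≤ _ := ENNReal.rpow_le_rpow h1 hp.1.le

/-- Pluennecke: `|S + S|^3 ≤ |S + 2 S|^4` -/
theorem card_sum_pow_le (S : Finset ℤ) : (sumDil 1 S).card ^ 3 ≤ (sumDil 2 S).card ^ 4 := by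
  rcases S.eq_empty_or_nonempty with rfl | hS
  · simp [sumDil]
  set A : Finset ℤ := S.image fun x => 2 * x with hA
  have hAn : A.Nonempty := hS.image _
  have hAc : A.card = S.card := Finset.card_image_of_injective _ fun x y h => by
    have : (2 : ℤ) * x = 2 * y := h
    omega
  have h1 : sumDil 2 S = A + S := by
    ext z
    rw [sumDil_eq, mem_sd, Finset.mem_add]
    constructor
    · rintro ⟨a, ha, b, hb, h⟩
      exact ⟨2 * b, Finset.mem_image_of_mem _ hb, a, ha, by rw [← h]; ring⟩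
    · rintro ⟨x, hx, a, ha, h⟩
      obtain ⟨b, hb, rfl⟩ := Finset.mem_image.1 hx
      exact ⟨a, ha, b, hb, by rw [← h]; ring⟩
  have h2 : sumDil 1 S = 2 • S := by
    rw [two_nsmul]
    ext z
    rw [sumDil_eq, mem_sd, Finset.mem_add]
    constructor
    · rintro ⟨a, ha, b, hb, h⟩
      exact ⟨a, ha, b, hb, by rw [← h]; ring⟩
    · rintro ⟨a, ha, b, hb, h⟩
      exact ⟨a, ha, b, hb, by rw [← h]; ring⟩
  have h3 := Finset.pluennecke_ruzsa_inequality_nsmul_add hAn S 2
  rw [← h1, ← h2, hAc] at h3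
  have hs : 0 < S.card := hS.card_pos
  -- |S + S| * |S| ≤ |S + 2 S|^2
  have h4 : (sumDil 1 S).card * S.card ≤ (sumDil 2 S).card ^ 2 := by
    have hs' : (0 : ℚ≥0) < S.card := by exact_mod_cast hs
    have h5 : ((sumDil 1 S).card : ℚ≥0) * S.card ≤ ((sumDil 2 S).card : ℚ≥0) ^ 2 := by
      calc ((sumDil 1 S).card : ℚ≥0) * S.card
          ≤ (((sumDil 2 S).card / S.card : ℚ≥0) ^ 2 * S.card) * S.card :=
            mul_le_mul_of_nonneg_right h3 (by positivity)
        _ = ((sumDil 2 S).card : ℚ≥0) ^ 2 := by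
            rw [div_pow]
            field_simp
    exact_mod_cast h5
  have h5 := card_sumDil_le 1 S
  calc (sumDil 1 S).card ^ 3 = (sumDil 1 S).card ^ 2 * (sumDil 1 S).card := by ring
    _ ≤ (sumDil 1 S).card ^ 2 * S.card ^ 2 := Nat.mul_le_mul_left _ h5
    _ = ((sumDil 1 S).card * S.card) ^ 2 := by ring
    _ ≤ ((sumDil 2 S).card ^ 2) ^ 2 := Nat.pow_le_pow_left h4 2
    _ = (sumDil 2 S).card ^ 4 := by ring

end Pool.Agent.P6c46
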