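import Pool.Agent.Lib.P6c46.Defs

/-!
The sets `S = A ∪ 4 A`, `A` the integers below `16^J` with digits `0, 1, 2, 3` in base `16`.
-/

set_option autoImplicit false

namespace Pool.Agent.P6c46

/-- general sum of dilates of two sets -/
def sd (m : ℤ) (A B : Finset ℤ) : Finset ℤ := (A ×ˢ B).image fun x => x.1 + m * x.2

theorem mem_sd {m : ℤ} {A B : Finset ℤ} {z : ℤ} :
    z ∈ sd m A B ↔ ∃ a ∈ A, ∃ b ∈ B, a + m * b = z := by
  unfold sd
  simp only [Finset.mem_image, Finset.mem_product, Prod.exists]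
  constructor
  · rintro ⟨a, b, ⟨ha, hb⟩, h⟩
    exact ⟨a, ha, b, hb, h⟩
  · rintro ⟨a, ha, b, hb, h⟩
    exact ⟨a, b, ⟨ha, hb⟩, h⟩

theorem sumDil_eq (m : ℤ) (S : Finset ℤ) : sumDil m S = sd m S S := rfl

/-- integers with digits `0, 1, 2, 3` in base `16` -/
noncomputable def AA : ℕ → Finset ℤ
  | 0 => {0}
  | (J + 1) => (AA J ×ˢ Finset.Icc (0 : ℤ) 3).image fun x => 16 * x.1 + x.2

theorem mem_AA_succ {J : ℕ} {z : ℤ} :
    z ∈ AA (J + 1) ↔ ∃ a ∈ AA J, ∃ d : ℤ, 0 ≤ d ∧ d ≤ 3 ∧ 16 * a + d = z := by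
  show z ∈ (AA J ×ˢ Finset.Icc (0 : ℤ) 3).image (fun x => 16 * x.1 + x.2) ↔ _
  simp only [Finset.mem_image, Finset.mem_product, Finset.mem_Icc, Prod.exists]
  constructor
  · rintro ⟨a, d, ⟨ha, h1, h2⟩, h⟩
    exact ⟨a, ha, d, h1, h2, h⟩
  · rintro ⟨a, ha, d, h1, h2, h⟩
    exact ⟨a, d, ⟨ha, h1, h2⟩, h⟩

/-- the set `S` -/
noncomputable def SS (J : ℕ) : Finset ℤ := AA J ∪ (AA J).image fun a => 4 * a

theorem mem_SS {J : ℕ} {z : ℤ} : z ∈ SS J ↔ z ∈ AA J ∨ ∃ a ∈ AA J, 4 * a = z := by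
  unfold SS
  rw [Finset.mem_union, Finset.mem_image]

/-- all integers below `16^J` are sums -/
theorem mem_sum (J : ℕ) : ∀ z : ℤ, 0 ≤ z → z < 16 ^ J → ∃ a ∈ AA J, ∃ b ∈ AA J, a + 4 * b = z := by
  induction J with
  | zero =>
    intro z h0 h1
    have : z = 0 := by
      rw [pow_zero] at h1
      omega
    subst this
    exact ⟨0, Finset.mem_singleton_self _, 0, Finset.mem_singleton_self _, by norm_num⟩
  | succ J ih =>
    intro z h0 h1
    have h2 : 0 ≤ z / 16 := by omega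
    have h3 : z / 16 < 16 ^ J := by
      rw [pow_succ] at h1
      exact Int.ediv_lt_of_lt_mul (by norm_num) h1
    obtain ⟨a, ha, b, hb, hab⟩ := ih (z / 16) h2 h3
    refine ⟨16 * a + (z % 16) % 4, mem_AA_succ.2 ⟨a, ha, _, by omega, by omega, rfl⟩,
      16 * b + (z % 16) / 4, mem_AA_succ.2 ⟨b, hb, _, by omega, by omega, rfl⟩, ?_⟩
    omega

theorem le_card_sum (J : ℕ) : 16 ^ J ≤ (sumDil 1 (SS J)).card := by
  have h : (Finset.Ico (0 : ℤ) (16 ^ J)) ⊆ sumDil 1 (SS J) := by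
    intro z hz
    rw [Finset.mem_Ico] at hz
    obtain ⟨a, ha, b, hb, hab⟩ := mem_sum J z hz.1 hz.2
    rw [sumDil_eq, mem_sd]
    exact ⟨a, mem_SS.2 (Or.inl ha), 4 * b, mem_SS.2 (Or.inr ⟨b, hb, rfl⟩), by rw [one_mul]; exact hab⟩
  have h2 := Finset.card_le_card h
  rw [Int.card_Ico, sub_zero] at h2
  have h3 : ((16 : ℤ) ^ J).toNat = 16 ^ J := by
    rw [show ((16 : ℤ) ^ J) = ((16 ^ J : ℕ) : ℤ) by push_cast; rfl, Int.toNat_natCast]
  rw [h3] at h2
  exact h2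

/-- a set covered by `16 * B + D` -/
theorem card_le_of_digits {C B D : Finset ℤ}
    (h : ∀ z ∈ C, ∃ b ∈ B, ∃ d ∈ D, 16 * b + d = z) : C.card ≤ B.card * D.card := by
  have h1 : C ⊆ (B ×ˢ D).image fun x => 16 * x.1 + x.2 := by
    intro z hz
    obtain ⟨b, hb, d, hd, hbd⟩ := h z hz
    exact Finset.mem_image.2 ⟨(b, d), Finset.mem_product.2 ⟨hb, hd⟩, hbd⟩
  calc C.card ≤ _ := Finset.card_le_card h1
    _ ≤ (B ×ˢ D).card := Finset.card_image_le
    _ = B.card * D.card := Finset.card_product _ _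

theorem card_two (J : ℕ) : (sd 2 (AA J) (AA J)).card ≤ 10 ^ J := by
  induction J with
  | zero =>
    have : sd 2 (AA 0) (AA 0) = {0} := by decide
    rw [this]
    simp
  | succ J ih =>
    have h : (sd 2 (AA (J + 1)) (AA (J + 1))).card ≤
        (sd 2 (AA J) (AA J)).card * (Finset.Icc (0 : ℤ) 9).card := by
      apply card_le_of_digits
      intro z hz
      obtain ⟨a, ha, b, hb, hab⟩ := mem_sd.1 hz
      obtain ⟨a', ha', d, hd0, hd3, rfl⟩ := mem_AA_succ.1 ha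
      obtain ⟨b', hb', e, he0, he3, rfl⟩ := mem_AA_succ.1 hb
      refine ⟨a' + 2 * b', mem_sd.2 ⟨a', ha', b', hb', rfl⟩, d + 2 * e, ?_, ?_⟩
      · rw [Finset.mem_Icc]
        omega
      · rw [← hab]
        ring
    have h2 : (Finset.Icc (0 : ℤ) 9).card = 10 := by simp
    rw [h2] at h
    rw [pow_succ]
    omega

/-- the set `A + 8 A + {0, 1}` -/
noncomputable def GG (J : ℕ) : Finset ℤ := sd 1 (sd 8 (AA J) (AA J)) {0, 1}

theorem mem_GG {J : ℕ} {z : ℤ} :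
    z ∈ GG J ↔ ∃ a ∈ AA J, ∃ b ∈ AA J, ∃ c : ℤ, (c = 0 ∨ c = 1) ∧ a + 8 * b + c = z := by
  unfold GG
  rw [mem_sd]
  constructor
  · rintro ⟨x, hx, c, hc, h⟩
    obtain ⟨a, ha, b, hb, hab⟩ := mem_sd.1 hx
    refine ⟨a, ha, b, hb, c, ?_, ?_⟩
    · simpa using hc
    · rw [hab, ← h, one_mul]
  · rintro ⟨a, ha, b, hb, c, hc, h⟩
    refine ⟨a + 8 * b, mem_sd.2 ⟨a, ha, b, hb, rfl⟩, c, ?_, ?_⟩
    · simpa using hc
    · rw [one_mul, h]

theorem card_GG (J : ℕ) : (GG J).card ≤ 2 * 10 ^ J := by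
  induction J with
  | zero =>
    have : GG 0 = {0, 1} := by decide
    rw [this]
    decide
  | succ J ih =>
    have h : (GG (J + 1)).card ≤
        (GG J).card * (Finset.Icc (0 : ℤ) 4 ∪ Finset.Icc (8 : ℤ) 12).card := by
      apply card_le_of_digits
      intro z hz
      obtain ⟨a, ha, b, hb, c, hc, hab⟩ := mem_GG.1 hz
      obtain ⟨a', ha', d, hd0, hd3, rfl⟩ := mem_AA_succ.1 ha
      obtain ⟨b', hb', e, he0, he3, rfl⟩ := mem_AA_succ.1 hb
      refine ⟨a' + 8 * b' + e / 2, mem_GG.2 ⟨a', ha', b', hb', e / 2, by omega, rfl⟩,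
        d + 8 * (e % 2) + c, ?_, ?_⟩
      · rw [Finset.mem_union, Finset.mem_Icc, Finset.mem_Icc]
        omega
      · rw [← hab]
        omega
    have h2 : (Finset.Icc (0 : ℤ) 4 ∪ Finset.Icc (8 : ℤ) 12).card = 10 := by decide
    rw [h2] at h
    rw [pow_succ]
    omega

theorem card_eight (J : ℕ) : (sd 8 (AA J) (AA J)).card ≤ 2 * 10 ^ J := by
  refine (Finset.card_le_card ?_).trans (card_GG J)
  intro z hz
  obtain ⟨a, ha, b, hb, hab⟩ := mem_sd.1 hz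
  exact mem_GG.2 ⟨a, ha, b, hb, 0, Or.inl rfl, by rw [add_zero]; exact hab⟩

theorem card_sumDil_two (J : ℕ) : (sumDil 2 (SS J)).card ≤ 5 * 10 ^ J := by
  set T := sd 2 (AA J) (AA J) with hT
  set E := sd 8 (AA J) (AA J) with hE
  have h : sumDil 2 (SS J) ⊆ (T ∪ E) ∪ (T.image (fun x => 2 * x) ∪ T.image (fun x => 4 * x)) := by
    intro z hz
    rw [sumDil_eq, mem_sd] at hz
    obtain ⟨x, hx, y, hy, hxy⟩ := hz
    rcases mem_SS.1 hx with h1 | ⟨a, h1, rfl⟩ <;> rcases mem_SS.1 hy with h2 | ⟨b, h2, rfl⟩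
    · exact Finset.mem_union_left _ (Finset.mem_union_left _ (mem_sd.2 ⟨x, h1, y, h2, hxy⟩))
    · refine Finset.mem_union_left _ (Finset.mem_union_right _ (mem_sd.2 ⟨x, h1, b, h2, ?_⟩))
      rw [← hxy]
      ring
    · refine Finset.mem_union_right _ (Finset.mem_union_left _ (Finset.mem_image.2
        ⟨y + 2 * a, mem_sd.2 ⟨y, h2, a, h1, rfl⟩, ?_⟩))
      rw [← hxy]
      ring
    · refine Finset.mem_union_right _ (Finset.mem_union_right _ (Finset.mem_image.2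
        ⟨a + 2 * b, mem_sd.2 ⟨a, h1, b, h2, rfl⟩, ?_⟩))
      rw [← hxy]
      ring
  have h1 := card_two J
  have h2 := card_eight J
  have h3 : (T.image fun x => 2 * x).card ≤ T.card := Finset.card_image_le
  have h4 : (T.image fun x => 4 * x).card ≤ T.card := Finset.card_image_le
  have h5 := Finset.card_le_card h
  have h6 := Finset.card_union_le (T ∪ E) (T.image (fun x => 2 * x) ∪ T.image (fun x => 4 * x))
  have h7 := Finset.card_union_le T E
  have h8 := Finset.card_union_le (T.image (fun x => 2 * x)) (T.image (fun x => 4 * x))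
  rw [← hT] at h1
  rw [← hE] at h2
  omega

theorem card_sumDil_le (m : ℤ) (S : Finset ℤ) : (sumDil m S).card ≤ S.card ^ 2 := by
  unfold sumDil
  refine Finset.card_image_le.trans ?_
  rw [Finset.card_product, sq]

theorem four_pow_le (J : ℕ) : 4 ^ J ≤ (SS J).card := by
  have h1 := (le_card_sum J).trans (card_sumDil_le 1 (SS J))
  have h2 : (4 ^ J) ^ 2 ≤ (SS J).card ^ 2 := by
    rw [← pow_mul, mul_comm J 2, pow_mul]
    exact h1
  exact (Nat.pow_le_pow_iff_left two_ne_zero).1 h2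

/-- the power saving -/
theorem exponent {J : ℕ} (hJ : 204 ≤ J) : (5 * 10 ^ J) ^ 6 ≤ (16 ^ J) ^ 5 := by
  have h : ∀ k : ℕ, (5 * 10 ^ (204 + k)) ^ 6 ≤ (16 ^ (204 + k)) ^ 5 := by
    intro k
    induction k with
    | zero => norm_num
    | succ k ih =>
      have h1 : (5 * 10 ^ (204 + (k + 1))) ^ 6 = (5 * 10 ^ (204 + k)) ^ 6 * 10 ^ 6 := by ring
      have h2 : (16 ^ (204 + (k + 1))) ^ 5 = (16 ^ (204 + k)) ^ 5 * 16 ^ 5 := by ring
      rw [h1, h2]
      exact Nat.mul_le_mul ih (by norm_num)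
  obtain ⟨k, rfl⟩ := Nat.exists_eq_add_of_le hJ
  exact h k

/-- the sets `S_J` with all the bounds -/
theorem family (J : ℕ) : 4 ^ J ≤ (SS J).card ∧ 16 ^ J ≤ (sumDil 1 (SS J)).card ∧
    (sumDil 2 (SS J)).card ≤ 5 * 10 ^ J :=
  ⟨four_pow_le J, le_card_sum J, card_sumDil_two J⟩

theorem strict {J : ℕ} (hJ : 204 ≤ J) : 5 * 10 ^ J < 16 ^ J := by
  obtain ⟨k, rfl⟩ := Nat.exists_eq_add_of_le hJ
  have h1 : 5 * 10 ^ 204 < 16 ^ 204 := by norm_num
  calc 5 * 10 ^ (204 + k) = (5 * 10 ^ 204) * 10 ^ k := by ring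
    _ < 16 ^ 204 * 16 ^ k :=
      Nat.mul_lt_mul_of_lt_of_le h1 (Nat.pow_le_pow_left (by norm_num) k) (by positivity)
    _ = 16 ^ (204 + k) := by ring

theorem power_saving (n : ℕ) : ∃ S : Finset ℤ, n ≤ S.card ∧
    (sumDil 2 S).card < (sumDil 1 S).card ∧
    (sumDil 2 S).card ^ 6 ≤ (sumDil 1 S).card ^ 5 := by
  obtain ⟨h1, h2, h3⟩ := family (204 + n)
  refine ⟨SS (204 + n), ?_, ?_, ?_⟩
  · calc n ≤ 204 + n := by omega
      _ ≤ 4 ^ (204 + n) := (Nat.lt_pow_self (by norm_num)).le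
      _ ≤ _ := h1
  · exact h3.trans_lt ((strict (by omega)).trans_le h2)
  · calc (sumDil 2 (SS (204 + n))).card ^ 6 ≤ (5 * 10 ^ (204 + n)) ^ 6 := Nat.pow_le_pow_left h3 6
      _ ≤ (16 ^ (204 + n)) ^ 5 := exponent (by omega)
      _ ≤ _ := Nat.pow_le_pow_left h2 5

end Pool.Agent.P6c46
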